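import Pool.Agent.Run7.h96.IX.Stm

/-! Piece NB of the project IX of helper96 (MP_bc4c60_co): the maximum `N s x` of `g s x` on `[0,1]²`. -/

set_option autoImplicit false

namespace Run7.h382.IX

open Run7.h96.IX

theorem powI {s a : ℝ} (hs : 0 ≤ s) (h0 : 0 ≤ a) (h1 : a ≤ 1) : 0 ≤ a ^ s ∧ a ^ s ≤ 1 :=
  ⟨Real.rpow_nonneg h0 s, Real.rpow_le_one h0 h1 hs⟩

theorem g_le {s x a b : ℝ} (hs : 0 ≤ s) (hx : 0 < x) (ha0 : 0 ≤ a) (ha1 : a ≤ 1) (hb0 : 0 ≤ b)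
    (hb1 : b ≤ 1) : g s x a b ≤ 3 + x := by
  obtain ⟨p0, p1⟩ := powI (s := s) hs ha0 ha1
  obtain ⟨q0, q1⟩ := powI (s := s) hs hb0 hb1
  obtain ⟨r0, r1⟩ := powI (s := s) (a := 1 - a) hs (by linarith) (by linarith)
  obtain ⟨t0, t1⟩ := powI (s := s) (a := 1 - b) hs (by linarith) (by linarith)
  have h1 := mul_le_one₀ r1 t0 t1
  have h2 := mul_le_one₀ r1 q0 q1
  have h3 := mul_le_one₀ p1 t0 t1
  have h4 := mul_le_mul_of_nonneg_left (mul_le_one₀ p1 q0 q1) hx.le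
  unfold g
  linarith

theorem bdd {s x : ℝ} (hs : 0 ≤ s) (hx : 0 < x) :
    BddAbove {y | ∃ a b : ℝ, 0 ≤ a ∧ a ≤ 1 ∧ 0 ≤ b ∧ b ≤ 1 ∧ y = g s x a b} := by
  refine ⟨3 + x, ?_⟩
  rintro y ⟨a, b, ha0, ha1, hb0, hb1, rfl⟩
  exact g_le hs hx ha0 ha1 hb0 hb1

theorem t_NB : S_NB := by
  intro s x hs hx
  have key : ∀ a b : ℝ, 0 ≤ a → a ≤ 1 → 0 ≤ b → b ≤ 1 → g s x a b ≤ N s x :=
    fun a b ha0 ha1 hb0 hb1 => le_csSup (bdd hs hx) ⟨a, b, ha0, ha1, hb0, hb1, rfl⟩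
  have h0 : (0 : ℝ) ≤ (0 : ℝ) ^ s := Real.rpow_nonneg le_rfl s
  refine ⟨?_, ?_, key, ?_⟩
  · refine le_trans ?_ (key 0 0 le_rfl zero_le_one le_rfl zero_le_one)
    have : 0 ≤ x * ((0 : ℝ) ^ s * (0 : ℝ) ^ s) := by positivity
    simp only [g, sub_zero, Real.one_rpow]
    linarith
  · refine le_trans ?_ (key 1 1 zero_le_one le_rfl zero_le_one le_rfl)
    have : 0 ≤ (0 : ℝ) ^ s * (0 : ℝ) ^ s := by positivity
    simp only [g, sub_self, Real.one_rpow]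
    linarith
  · intro δ hδ
    have hne : {y | ∃ a b : ℝ, 0 ≤ a ∧ a ≤ 1 ∧ 0 ≤ b ∧ b ≤ 1 ∧ y = g s x a b}.Nonempty :=
      ⟨_, 0, 0, le_rfl, zero_le_one, le_rfl, zero_le_one, rfl⟩
    obtain ⟨y, ⟨a, b, ha0, ha1, hb0, hb1, rfl⟩, hy⟩ :=
      exists_lt_of_lt_csSup hne (show N s x - δ < sSup _ by unfold N; linarith)
    exact ⟨a, b, ha0, ha1, hb0, hb1, hy⟩

end Run7.h382.IX
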