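import Pool.Agent.Run7.h96.IX.Stm3

/-! Piece T5 of the project IX of helper96 (MP_bc4c60_co): the lower bound for super-polynomially
small `c`. -/

set_option autoImplicit false

open Filter Topology

namespace Run7.h382.IX

open Run7.h96.IX

theorem t_T5 (hPAD : S_PAD) : S_T5 := by
  intro l v v' hl0 hl1 hv0 hvv hyp lam c hc hlam hcl
  obtain ⟨-, pad2, -, -⟩ := hPAD
  have hv'0 : 0 < v' := hv0.trans hvv
  obtain ⟨e, he⟩ : ∃ e : ℝ, e = (v' - v) / (4 * v') := ⟨_, rfl⟩
  have he0 : 0 < e := by rw [he]; exact div_pos (by linarith) (by linarith)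
  have hev : v' * e = (v' - v) / 4 := by rw [he]; field_simp
  have he1 : e ≤ 1 / 4 := by
    rw [he, div_le_iff₀ (by linarith)]; linarith
  obtain ⟨k, hk⟩ : ∃ k : ℝ, k = e * min l (1 - l) / 2 := ⟨_, rfl⟩
  have hmin0 : 0 < min l (1 - l) := lt_min hl0 (by linarith)
  have hk0 : 0 < k := by rw [hk]; positivity
  have hkl : 2 * k ≤ e * l := by
    have := mul_le_mul_of_nonneg_left (min_le_left l (1 - l)) he0.le
    rw [hk]; linarith
  have hkl' : 2 * k ≤ e * (1 - l) := by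
    have := mul_le_mul_of_nonneg_left (min_le_right l (1 - l)) he0.le
    rw [hk]; linarith
  obtain ⟨T, K, hT, n0, hn0⟩ := hyp k hk0
  have hTR : (1 : ℝ) ≤ T := by exact_mod_cast hT
  have hT0 : (0 : ℝ) < T := by linarith
  have hvd : 0 < v' - v := by linarith
  have ev1 : ∀ᶠ n : ℕ in atTop, |(lam n : ℝ) / n - l| < k := by
    obtain ⟨N1, hN1⟩ := (Metric.tendsto_atTop.1 hlam) k hk0
    filter_upwards [eventually_ge_atTop N1] with n hn
    simpa [Real.dist_eq] using hN1 n hn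
  have ev2 : ∀ᶠ n : ℕ in atTop, (2 * K : ℝ) ≤ -Real.logb 2 (c n) / Real.logb 2 n :=
    hcl.eventually_ge_atTop _
  have ev3 : ∀ᶠ n : ℕ in atTop, max (4 * (T : ℝ) * (n0 + 1)) (2 * T * v' * 4 / (3 * (v' - v))) ≤ (n : ℝ) :=
    tendsto_natCast_atTop_atTop.eventually_ge_atTop _
  filter_upwards [ev1, ev2, ev3, eventually_ge_atTop 2] with n h1 h2 h3 hn
  have hn2 : (2 : ℝ) ≤ n := by exact_mod_cast hn
  have hnR : (0 : ℝ) < n := by linarith
  have h3a := (le_max_left _ _).trans h3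
  have h3b := (le_max_right _ _).trans h3
  rw [div_le_iff₀ (by linarith)] at h3b
  -- the number `q'`
  have hpos : 0 ≤ (1 - e) * n / (2 * T) := by
    have : 0 ≤ 1 - e := by linarith
    positivity
  obtain ⟨q', hq'⟩ : ∃ q' : ℕ, q' = ⌊(1 - e) * n / (2 * T)⌋₊ := ⟨_, rfl⟩
  have hq'1 : (q' : ℝ) ≤ (1 - e) * n / (2 * T) := by rw [hq']; exact Nat.floor_le hpos
  have hq'2 : (1 - e) * n / (2 * T) < q' + 1 := by rw [hq']; exact Nat.lt_floor_add_one _
  rw [le_div_iff₀ (by positivity)] at hq'1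
  rw [div_lt_iff₀ (by positivity)] at hq'2
  have hen : 0 ≤ e * n := by positivity
  have hen1 : e * n ≤ 1 / 4 * n := mul_le_mul_of_nonneg_right he1 hnR.le
  have hqn0 : n0 ≤ q' := by
    have h4 : 3 * (T : ℝ) * (n0 + 1) < (q' + 1) * (2 * T) := by linarith
    have h5 : ((n0 : ℝ) + 1) * (2 * T) < (q' + 1) * (2 * T) := by
      have : 0 ≤ (T : ℝ) * (n0 + 1) := by positivity
      linarith
    have h6 := lt_of_mul_lt_mul_right h5 (by positivity)
    have h7 : (n0 : ℝ) < q' := by linarith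
    exact_mod_cast h7.le
  obtain ⟨P, Kk, lam', hP, hKk, hA, hKP, hKv, hll⟩ := hn0 q' hqn0
  obtain ⟨q, hq⟩ : ∃ q : ℕ, q = T * (2 * q') := ⟨_, rfl⟩
  rw [← hq] at hA hKv hll
  have hqR : (q : ℝ) = q' * (2 * T) := by rw [hq]; push_cast; ring
  have hq0 : (0 : ℝ) ≤ q := Nat.cast_nonneg _
  have hq1 : (q : ℝ) ≤ (1 - e) * n := by rw [hqR]; exact hq'1
  have hq2 : (1 - e) * n - 2 * T < q := by rw [hqR]; linarith
  have hqn : q ≤ n := by
    have : (q : ℝ) ≤ n := by linarith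
    exact_mod_cast this
  obtain ⟨r, hr⟩ : ∃ r : ℕ, q + r = n := ⟨n - q, Nat.add_sub_cancel' hqn⟩
  have hrR : (q : ℝ) + r = n := by exact_mod_cast hr
  -- the intersection size
  have h1' : |(lam n : ℝ) - l * n| ≤ k * n := by
    have : (lam n : ℝ) - l * n = ((lam n : ℝ) / n - l) * n := by field_simp
    rw [this, abs_mul, abs_of_pos hnR]
    exact mul_le_mul_of_nonneg_right h1.le hnR.le
  obtain ⟨a1, a2⟩ := abs_le.1 h1'
  obtain ⟨b1, b2⟩ := abs_le.1 hll
  have hke0 : 0 < k * e := mul_pos hk0 he0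
  have hlow : (lam' : ℝ) ≤ lam n := by
    have h4 : (l + k) * q ≤ (l + k) * ((1 - e) * n) :=
      mul_le_mul_of_nonneg_left hq1 (by linarith)
    have h5 : (l + k) * (1 - e) ≤ l - k := by linarith
    have h6 := mul_le_mul_of_nonneg_right h5 hnR.le
    linarith
  have hupp : (lam n : ℝ) ≤ lam' + r := by
    have h4 : (1 - l + k) * q ≤ (1 - l + k) * ((1 - e) * n) :=
      mul_le_mul_of_nonneg_left hq1 (by linarith)
    have h5 : (1 - l + k) * (1 - e) ≤ 1 - l - k := by linarith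
    have h6 := mul_le_mul_of_nonneg_right h5 hnR.le
    linarith
  have hlowN : lam' ≤ lam n := by exact_mod_cast hlow
  have huppN : lam n ≤ lam' + r := by exact_mod_cast hupp
  have hA2 := pad2 q P Kk lam' r (lam n - lam') (by omega) hA
  rw [hr, Nat.add_sub_cancel' hlowN] at hA2
  obtain ⟨A, B, hAc, hBc, hcnt⟩ := hA2
  have hKpos : (0 : ℝ) < Kk := by exact_mod_cast hKk
  have hPpos : (0 : ℝ) < P := by exact_mod_cast hP
  refine ⟨Kk, ⟨A, B, hAc, hBc, ?_⟩, ?_⟩
  · refine le_trans ?_ (show (P : ℝ) ≤ (cnt (lam n) A B : ℝ) by exact_mod_cast hcnt)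
    have hKP' : (Kk : ℝ) ^ 2 ≤ P * (q' + 1) ^ K := by exact_mod_cast hKP
    have hlogn : 0 < Real.logb 2 n := Real.logb_pos (by norm_num) (by linarith)
    rw [le_div_iff₀ hlogn] at h2
    have hq'n : (q' : ℝ) + 1 ≤ (n : ℝ) ^ 2 := by
      have h4 : (q' : ℝ) ≤ q := by
        rw [hqR]
        have : (0 : ℝ) ≤ q' := Nat.cast_nonneg _
        have := mul_le_mul_of_nonneg_left (show (1 : ℝ) ≤ 2 * T by linarith) this
        linarith
      have h5 : (q : ℝ) ≤ n := by linarith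
      have h6 : (2 : ℝ) * n ≤ n * n := mul_le_mul_of_nonneg_right hn2 hnR.le
      rw [sq]
      linarith
    have hone : c n * ((q' : ℝ) + 1) ^ K ≤ 1 := by
      have h4 : ((q' : ℝ) + 1) ^ K ≤ ((n : ℝ) ^ 2) ^ K := pow_le_pow_left₀ (by positivity) hq'n K
      refine (mul_le_mul_of_nonneg_left h4 (hc n).le).trans ?_
      have hcn := hc n
      rw [← Real.logb_le_logb (b := 2) (by norm_num) (by positivity) one_pos, Real.logb_one,
        Real.logb_mul hcn.ne' (by positivity), Real.logb_pow, Real.logb_pow]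
      have h5 : ((2 : ℕ) : ℝ) = 2 := rfl
      rw [h5]
      have h6 : 2 * (K : ℝ) * Real.logb 2 n = K * (2 * Real.logb 2 n) := by ring
      rw [h6] at h2
      linarith
    calc c n * (Kk : ℝ) ^ 2 ≤ c n * (P * (q' + 1) ^ K) :=
          mul_le_mul_of_nonneg_left hKP' (hc n).le
      _ = (c n * ((q' : ℝ) + 1) ^ K) * P := by ring
      _ ≤ 1 * P := mul_le_mul_of_nonneg_right hone hPpos.le
      _ = P := one_mul _
  · have h4 : v * n ≤ 2 * Real.logb 2 Kk := by
      refine le_trans ?_ hKv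
      have h5 : v' * ((1 - e) * n - 2 * T) ≤ v' * q := mul_le_mul_of_nonneg_left hq2.le hv'0.le
      have h6 : v' * ((1 - e) * n) = v' * n - (v' - v) / 4 * n := by rw [← hev]; ring
      linarith
    have h7 : (Kk : ℝ) ^ 2 = (2 : ℝ) ^ (2 * Real.logb 2 Kk) := by
      rw [mul_comm, Real.rpow_mul (by norm_num), Real.rpow_logb (by norm_num) (by norm_num) hKpos]
      norm_cast
    rw [h7]
    exact Real.rpow_le_rpow_of_exponent_le (by norm_num) h4

end Run7.h382.IX
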